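import Pool.Agent.H4.FV.Stm

set_option autoImplicit false
set_option linter.unusedSectionVars false
set_option linter.unusedVariables false

/-! Vaught's conjecture for first-order theories and the semigroups with `x y z = x y`. -/

namespace Pool.Agent.H227.FV

open FirstOrder FirstOrder.Language
open Pool.Agent.W889.FO
open Pool.Agent.W889.FO.StA (FD.all1 FD.ex1)
open Pool.Agent.W889.FO.StE (LG gd)
open Pool.Agent.W889.SD (Big Pth Subd)
open Pool.Agent.TH686.FO (sub_ss)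
open Pool.Agent.H4.VG
open Pool.Agent.H4.FV
open Pool.Agent.N649.SV

/-- left zeros -/
def lzP (μ : ℕ → ℕ → ℕ) (x : ℕ) : Prop := ∀ y, μ x y = x

/-- the vertices -/
def dmP (μ : ℕ → ℕ → ℕ) (x : ℕ) : Prop := ∀ y z, μ y z = x → y = x

/-- the edges -/
def rlP (μ : ℕ → ℕ → ℕ) (x y : ℕ) : Prop :=
  (¬ lzP μ x ∧ lzP μ y ∧ μ x y ≠ μ x x) ∨ (¬ lzP μ y ∧ lzP μ x ∧ μ y x ≠ μ y y)

/-- the coded operations, with the special elements -/
def FB (μ : ℕ → ℕ → ℕ) (a b : ℕ) : Prop :=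
  a ≠ b ∧ lzP μ a ∧ lzP μ b ∧ (∃ x y, ¬ lzP μ x ∧ μ x y = b) ∧
    (∀ x y, ¬ lzP μ x → (μ x y = a ∨ μ x y = b) ∧ ((¬ lzP μ y ∨ y = a ∨ y = b) → μ x y = a)) ∧
    ∀ x, x ≠ a → x ≠ b → (¬ lzP μ x ↔ Big (rlP μ) x)

/-- the coded operations -/
def FAP (μ : ℕ → ℕ → ℕ) : Prop := ∃ a b, FB μ a b

section fd

variable {α : Type} {p q r : LR.Structure ℕ → (α → ℕ) → ℕ}

theorem fd_lz (hp : FT p) : FD St0.W (fun S v => lzP (ml S) (p S v)) :=
  FD.all1 (P := fun S v y => ml S (p S v) y = p S v)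
    (eqT ((hp.sub Sum.inl).mul (FT.var (Sum.inr ()))) (hp.sub Sum.inl))

theorem fd_dm (hp : FT p) : FD St0.W (fun S v => dmP (ml S) (p S v)) :=
  FD.all1 (P := fun S v y => ∀ z, ml S y z = p S v → y = p S v) <|
  FD.all1 (P := fun S w z => ml S (w (Sum.inr ())) z = p S (fun i => w (Sum.inl i)) →
    w (Sum.inr ()) = p S (fun i => w (Sum.inl i))) <|
  (eqT ((FT.var (Sum.inl (Sum.inr ()))).mul (FT.var (Sum.inr ())))
    (hp.sub (fun i => Sum.inl (Sum.inl i)))).imp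
    (eqT (FT.var (Sum.inl (Sum.inr ()))) (hp.sub (fun i => Sum.inl (Sum.inl i))))

theorem fd_rl (hp : FT p) (hq : FT q) : FD St0.W (fun S v => rlP (ml S) (p S v) (q S v)) :=
  ((fd_lz hp).not.and ((fd_lz hq).and (eqT (hp.mul hq) (hp.mul hp)).not)).or
    ((fd_lz hq).not.and ((fd_lz hp).and (eqT (hq.mul hp) (hq.mul hq)).not))

theorem fd_Big (hp : FT p) : FD St0.W (fun S v => Big (rlP (ml S)) (p S v)) :=
  FD.ex1 (P := fun S v a => ∃ b c, a ≠ b ∧ a ≠ c ∧ b ≠ c ∧ rlP (ml S) (p S v) a ∧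
    rlP (ml S) (p S v) b ∧ rlP (ml S) (p S v) c) <|
  FD.ex1 (P := fun S w b => ∃ c, w (Sum.inr ()) ≠ b ∧ w (Sum.inr ()) ≠ c ∧ b ≠ c ∧
    rlP (ml S) (p S (fun i => w (Sum.inl i))) (w (Sum.inr ())) ∧
    rlP (ml S) (p S (fun i => w (Sum.inl i))) b ∧
    rlP (ml S) (p S (fun i => w (Sum.inl i))) c) <|
  FD.ex1 (P := fun S w c => w (Sum.inl (Sum.inr ())) ≠ w (Sum.inr ()) ∧
    w (Sum.inl (Sum.inr ())) ≠ c ∧ w (Sum.inr ()) ≠ c ∧
    rlP (ml S) (p S (fun i => w (Sum.inl (Sum.inl i)))) (w (Sum.inl (Sum.inr ()))) ∧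
    rlP (ml S) (p S (fun i => w (Sum.inl (Sum.inl i)))) (w (Sum.inr ())) ∧
    rlP (ml S) (p S (fun i => w (Sum.inl (Sum.inl i)))) c) <|
  (eqT (FT.var (Sum.inl (Sum.inl (Sum.inr ())))) (FT.var (Sum.inl (Sum.inr ())))).not.and <|
  (eqT (FT.var (Sum.inl (Sum.inl (Sum.inr ())))) (FT.var (Sum.inr ()))).not.and <|
  (eqT (FT.var (Sum.inl (Sum.inr ()))) (FT.var (Sum.inr ()))).not.and <|
  (fd_rl (hp.sub (fun i => Sum.inl (Sum.inl (Sum.inl i))))
    (FT.var (Sum.inl (Sum.inl (Sum.inr ()))))).and <|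
  (fd_rl (hp.sub (fun i => Sum.inl (Sum.inl (Sum.inl i)))) (FT.var (Sum.inl (Sum.inr ())))).and <|
  fd_rl (hp.sub (fun i => Sum.inl (Sum.inl (Sum.inl i)))) (FT.var (Sum.inr ()))

theorem fd_FB (hp : FT p) (hq : FT q) : FD St0.W (fun S v => FB (ml S) (p S v) (q S v)) := by
  have h1 : FD St0.W (fun S v => ∃ x y, ¬ lzP (ml S) x ∧ ml S x y = q S v) :=
    FD.ex1 (P := fun S v x => ∃ y, ¬ lzP (ml S) x ∧ ml S x y = q S v) <|
    FD.ex1 (P := fun S w y => ¬ lzP (ml S) (w (Sum.inr ())) ∧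
      ml S (w (Sum.inr ())) y = q S (fun i => w (Sum.inl i))) <|
    (fd_lz (FT.var (Sum.inl (Sum.inr ())))).not.and <|
    eqT ((FT.var (Sum.inl (Sum.inr ()))).mul (FT.var (Sum.inr ())))
      (hq.sub (fun i => Sum.inl (Sum.inl i)))
  have h2 : FD St0.W (fun S v => ∀ x y, ¬ lzP (ml S) x →
      (ml S x y = p S v ∨ ml S x y = q S v) ∧
        ((¬ lzP (ml S) y ∨ y = p S v ∨ y = q S v) → ml S x y = p S v)) :=
    FD.all1 (P := fun S v x => ∀ y, ¬ lzP (ml S) x →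
      (ml S x y = p S v ∨ ml S x y = q S v) ∧
        ((¬ lzP (ml S) y ∨ y = p S v ∨ y = q S v) → ml S x y = p S v)) <|
    FD.all1 (P := fun S w y => ¬ lzP (ml S) (w (Sum.inr ())) →
      (ml S (w (Sum.inr ())) y = p S (fun i => w (Sum.inl i)) ∨
        ml S (w (Sum.inr ())) y = q S (fun i => w (Sum.inl i))) ∧
        ((¬ lzP (ml S) y ∨ y = p S (fun i => w (Sum.inl i)) ∨
          y = q S (fun i => w (Sum.inl i))) →
          ml S (w (Sum.inr ())) y = p S (fun i => w (Sum.inl i)))) <|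
    (fd_lz (FT.var (Sum.inl (Sum.inr ())))).not.imp <|
    ((eqT ((FT.var (Sum.inl (Sum.inr ()))).mul (FT.var (Sum.inr ())))
      (hp.sub (fun i => Sum.inl (Sum.inl i)))).or
      (eqT ((FT.var (Sum.inl (Sum.inr ()))).mul (FT.var (Sum.inr ())))
      (hq.sub (fun i => Sum.inl (Sum.inl i))))).and <|
    ((fd_lz (FT.var (Sum.inr ()))).not.or
      ((eqT (FT.var (Sum.inr ())) (hp.sub (fun i => Sum.inl (Sum.inl i)))).or
        (eqT (FT.var (Sum.inr ())) (hq.sub (fun i => Sum.inl (Sum.inl i)))))).imp <|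
    eqT ((FT.var (Sum.inl (Sum.inr ()))).mul (FT.var (Sum.inr ())))
      (hp.sub (fun i => Sum.inl (Sum.inl i)))
  have h3 : FD St0.W (fun S v => ∀ x, x ≠ p S v → x ≠ q S v →
      (¬ lzP (ml S) x ↔ Big (rlP (ml S)) x)) :=
    FD.all1 (P := fun S v x => x ≠ p S v → x ≠ q S v →
      (¬ lzP (ml S) x ↔ Big (rlP (ml S)) x)) <|
    (eqT (FT.var (Sum.inr ())) (hp.sub Sum.inl)).not.imp <|
    (eqT (FT.var (Sum.inr ())) (hq.sub Sum.inl)).not.imp <|
    (fd_lz (FT.var (Sum.inr ()))).not.iff (fd_Big (FT.var (Sum.inr ())))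
  exact (eqT hp hq).not.and <| (fd_lz hp).and <| (fd_lz hq).and <| h1.and <| h2.and h3

end fd

theorem ax_P : Ax (fun S : LR.Structure ℕ => St0.W S ∧ FAP (ml S)) :=
  axf (P := fun S => FAP (ml S)) <|
  FD.ex1 (P := fun S _ a => ∃ b, FB (ml S) a b) <|
  FD.ex1 (P := fun S w b => FB (ml S) (w (Sum.inr ())) b) <|
  fd_FB (FT.var (Sum.inl (Sum.inr ()))) (FT.var (Sum.inr ()))

section comb

variable {μ μ' : ℕ → ℕ → ℕ} {a b a' b' : ℕ}

theorem FB.sq (h : FB μ a b) {x : ℕ} (hx : ¬ lzP μ x) : μ x x = a :=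
  (h.2.2.2.2.1 x x hx).2 (Or.inl hx)

theorem FB.dm_iff (h : FB μ a b) (x : ℕ) : dmP μ x ↔ x ≠ a ∧ x ≠ b := by
  obtain ⟨hab, ha, hb, ⟨x0, y0, h0, h1⟩, h2, h3⟩ := h
  constructor
  · intro hd
    constructor
    · rintro rfl
      have h4 := hd x0 x0 ((h2 x0 x0 h0).2 (Or.inl h0))
      rw [h4] at h0
      exact h0 ha
    · rintro rfl
      have h4 := hd x0 y0 h1
      rw [h4] at h0
      exact h0 hb
  · rintro ⟨hxa, hxb⟩ y z hyz
    by_cases hy : lzP μ y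
    · rw [← hy z]
      exact hyz
    · rcases (h2 y z hy).1 with h4 | h4
      · exact absurd (hyz.symm.trans h4) hxa
      · exact absurd (hyz.symm.trans h4) hxb

theorem FB.rl_left (h : FB μ a b) {x y : ℕ} (hr : rlP μ x y) : dmP μ x := by
  rw [h.dm_iff]
  obtain ⟨hab, ha, hb, h1, h2, h3⟩ := h
  rcases hr with ⟨k1, k2, k3⟩ | ⟨k1, k2, k3⟩
  · exact ⟨fun e => k1 (e ▸ ha), fun e => k1 (e ▸ hb)⟩
  · have k4 : μ y y = a := (h2 y y k1).2 (Or.inl k1)
    rw [k4] at k3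
    exact ⟨fun e => k3 ((h2 y x k1).2 (Or.inr (Or.inl e))),
      fun e => k3 ((h2 y x k1).2 (Or.inr (Or.inr e)))⟩

theorem rlP_symm {x y : ℕ} (h : rlP μ x y) : rlP μ y x := Or.symm h

theorem FB.rl_right (h : FB μ a b) {x y : ℕ} (hr : rlP μ x y) : dmP μ y :=
  h.rl_left (rlP_symm hr)

theorem FB.big_iff (h : FB μ a b) (h' : FB μ' a' b')
    (τ : {x // dmP μ x} ≃ {x // dmP μ' x})
    (hτ : ∀ x y : {x // dmP μ x}, rlP μ' (τ x) (τ y) ↔ rlP μ x y) (x : {x // dmP μ x}) :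
    Big (rlP μ) x ↔ Big (rlP μ') (τ x) := by
  constructor
  · rintro ⟨u, v, w, h1, h2, h3, h4, h5, h6⟩
    have hu := h.rl_right h4
    have hv := h.rl_right h5
    have hw := h.rl_right h6
    refine ⟨τ ⟨u, hu⟩, τ ⟨v, hv⟩, τ ⟨w, hw⟩, ?_, ?_, ?_, (hτ _ _).2 h4, (hτ _ _).2 h5,
      (hτ _ _).2 h6⟩
    · intro e
      exact h1 (congrArg Subtype.val (τ.injective (Subtype.ext e)))
    · intro e
      exact h2 (congrArg Subtype.val (τ.injective (Subtype.ext e)))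
    · intro e
      exact h3 (congrArg Subtype.val (τ.injective (Subtype.ext e)))
  · rintro ⟨u, v, w, h1, h2, h3, h4, h5, h6⟩
    have hu := h'.rl_right h4
    have hv := h'.rl_right h5
    have hw := h'.rl_right h6
    refine ⟨τ.symm ⟨u, hu⟩, τ.symm ⟨v, hv⟩, τ.symm ⟨w, hw⟩, ?_, ?_, ?_, ?_, ?_, ?_⟩
    · intro e
      exact h1 (congrArg Subtype.val (τ.symm.injective (Subtype.ext e)))
    · intro e
      exact h2 (congrArg Subtype.val (τ.symm.injective (Subtype.ext e)))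
    · intro e
      exact h3 (congrArg Subtype.val (τ.symm.injective (Subtype.ext e)))
    · rw [← hτ, Equiv.apply_symm_apply]
      exact h4
    · rw [← hτ, Equiv.apply_symm_apply]
      exact h5
    · rw [← hτ, Equiv.apply_symm_apply]
      exact h6

theorem FB.inf (h : FB μ a b) (N : ℕ) : ∃ u, N ≤ u ∧ dmP μ u := by
  refine ⟨N + a + b + 1, by omega, ?_⟩
  rw [h.dm_iff]
  constructor <;> omega

theorem FB.kp (h : FB μ a b) : KP μ := by
  obtain ⟨hab, ha, hb, h1, h2, h3⟩ := h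
  constructor
  · intro x y z
    by_cases hx : lzP μ x
    · rw [hx y, hx z]
    · rcases (h2 x y hx).1 with h4 | h4
      · rw [h4]
        exact ha z
      · rw [h4]
        exact hb z
  · intro x y z
    by_cases hx : lzP μ x
    · rw [hx, hx]
    · by_cases hy : lzP μ y
      · rw [hy z]
      · have h5 : μ x y = a := (h2 x y hx).2 (Or.inl hy)
        rw [h5]
        refine (h2 x (μ y z) hx).2 (Or.inr ?_)
        exact (h2 y z hy).1

end comb

theorem up_P (μ μ' : ℕ → ℕ → ℕ) (h : FAP μ) (h' : FAP μ')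
    (τ : {x // dmP μ x} ≃ {x // dmP μ' x})
    (hτ : ∀ x y : {x // dmP μ x}, rlP μ' (τ x) (τ y) ↔ rlP μ x y) :
    ∃ σ : Equiv.Perm ℕ, ∀ x y, σ (μ x y) = μ' (σ x) (σ y) := by
  classical
  obtain ⟨a, b, h⟩ := h
  obtain ⟨a', b', h'⟩ := h'
  -- the map
  obtain ⟨f, hf⟩ : ∃ f : ℕ → ℕ, f = fun x => if hx : dmP μ x then (τ ⟨x, hx⟩ : ℕ) else
      if x = a then a' else b' := ⟨_, rfl⟩
  obtain ⟨g, hg⟩ : ∃ g : ℕ → ℕ, g = fun x => if hx : dmP μ' x then (τ.symm ⟨x, hx⟩ : ℕ) else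
      if x = a' then a else b := ⟨_, rfl⟩
  have hda : ¬ dmP μ a := fun hd => ((h.dm_iff a).1 hd).1 rfl
  have hdb : ¬ dmP μ b := fun hd => ((h.dm_iff b).1 hd).2 rfl
  have hda' : ¬ dmP μ' a' := fun hd => ((h'.dm_iff a').1 hd).1 rfl
  have hdb' : ¬ dmP μ' b' := fun hd => ((h'.dm_iff b').1 hd).2 rfl
  have hab : a ≠ b := h.1
  have hab' : a' ≠ b' := h'.1
  have hcase : ∀ x, x = a ∨ x = b ∨ dmP μ x := by
    intro x
    by_cases h1 : x = a
    · exact Or.inl h1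
    by_cases h2 : x = b
    · exact Or.inr (Or.inl h2)
    exact Or.inr (Or.inr ((h.dm_iff x).2 ⟨h1, h2⟩))
  have hcase' : ∀ x, x = a' ∨ x = b' ∨ dmP μ' x := by
    intro x
    by_cases h1 : x = a'
    · exact Or.inl h1
    by_cases h2 : x = b'
    · exact Or.inr (Or.inl h2)
    exact Or.inr (Or.inr ((h'.dm_iff x).2 ⟨h1, h2⟩))
  have fa : f a = a' := by rw [hf]; simp only [hda, dif_neg, not_false_iff, if_true]
  have fb : f b = b' := by
    rw [hf]; simp only [hdb, dif_neg, not_false_iff]; rw [if_neg hab.symm]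
  have fd : ∀ x (hx : dmP μ x), f x = (τ ⟨x, hx⟩ : ℕ) := by
    intro x hx
    rw [hf]
    exact dif_pos hx
  have ga : g a' = a := by rw [hg]; simp only [hda', dif_neg, not_false_iff, if_true]
  have gb : g b' = b := by
    rw [hg]; simp only [hdb', dif_neg, not_false_iff]; rw [if_neg hab'.symm]
  have gd : ∀ x (hx : dmP μ' x), g x = (τ.symm ⟨x, hx⟩ : ℕ) := by
    intro x hx
    rw [hg]
    exact dif_pos hx
  have hgf : ∀ x, g (f x) = x := by
    intro x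
    rcases hcase x with rfl | rfl | hx
    · rw [fa, ga]
    · rw [fb, gb]
    · rw [fd x hx, gd _ (τ ⟨x, hx⟩).2]
      have : (⟨(τ ⟨x, hx⟩ : ℕ), (τ ⟨x, hx⟩).2⟩ : {x // dmP μ' x}) = τ ⟨x, hx⟩ := rfl
      rw [this, Equiv.symm_apply_apply]
  have hfg : ∀ x, f (g x) = x := by
    intro x
    rcases hcase' x with rfl | rfl | hx
    · rw [ga, fa]
    · rw [gb, fb]
    · rw [gd x hx, fd _ (τ.symm ⟨x, hx⟩).2]
      have : (⟨(τ.symm ⟨x, hx⟩ : ℕ), (τ.symm ⟨x, hx⟩).2⟩ : {x // dmP μ x}) =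
        τ.symm ⟨x, hx⟩ := rfl
      rw [this, Equiv.apply_symm_apply]
  have hinj : Function.Injective f := fun x y hxy => by rw [← hgf x, ← hgf y, hxy]
  have hlz : ∀ x, lzP μ x ↔ lzP μ' (f x) := by
    intro x
    rcases hcase x with rfl | rfl | hx
    · rw [fa]
      exact ⟨fun _ => h'.2.1, fun _ => h.2.1⟩
    · rw [fb]
      exact ⟨fun _ => h'.2.2.1, fun _ => h.2.2.1⟩
    · have h1 := (h.dm_iff x).1 hx
      have h2 := h.2.2.2.2.2 x h1.1 h1.2
      have h3 := (τ ⟨x, hx⟩).2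
      have h4 := (h'.dm_iff _).1 h3
      have h5 := h'.2.2.2.2.2 _ h4.1 h4.2
      rw [fd x hx]
      have h6 := h.big_iff h' τ hτ ⟨x, hx⟩
      have h7 : (¬ lzP μ x ↔ ¬ lzP μ' (τ ⟨x, hx⟩ : ℕ)) := h2.trans (h6.trans h5.symm)
      exact not_iff_not.1 h7
  refine ⟨⟨f, g, hgf, hfg⟩, fun x y => ?_⟩
  show f (μ x y) = μ' (f x) (f y)
  by_cases hx : lzP μ x
  · rw [hx y, (hlz x).1 hx]
  have hx' : ¬ lzP μ' (f x) := fun h1 => hx ((hlz x).2 h1)
  by_cases hy : ¬ lzP μ y ∨ y = a ∨ y = b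
  · rw [(h.2.2.2.2.1 x y hx).2 hy, fa]
    refine ((h'.2.2.2.2.1 (f x) (f y) hx').2 ?_).symm
    rcases hy with hy | rfl | rfl
    · exact Or.inl fun h1 => hy ((hlz y).2 h1)
    · exact Or.inr (Or.inl fa)
    · exact Or.inr (Or.inr fb)
  · have hy1 : lzP μ y := by
      by_contra h1
      exact hy (Or.inl h1)
    have hyd : dmP μ y := (h.dm_iff y).2 ⟨fun e => hy (Or.inr (Or.inl e)),
      fun e => hy (Or.inr (Or.inr e))⟩
    have hxd : dmP μ x := (h.dm_iff x).2 ⟨fun e => hx (e ▸ h.2.1), fun e => hx (e ▸ h.2.2.1)⟩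
    have hr := hτ ⟨x, hxd⟩ ⟨y, hyd⟩
    rw [← fd x hxd, ← fd y hyd] at hr
    have e1 : rlP μ x y ↔ μ x y ≠ a := by
      rw [← h.sq hx]
      constructor
      · rintro (⟨-, -, k⟩ | ⟨k, -, -⟩)
        · exact k
        · exact absurd hy1 k
      · exact fun k => Or.inl ⟨hx, hy1, k⟩
    have hy1' : lzP μ' (f y) := (hlz y).1 hy1
    have e2 : rlP μ' (f x) (f y) ↔ μ' (f x) (f y) ≠ a' := by
      rw [← h'.sq hx']
      constructor
      · rintro (⟨-, -, k⟩ | ⟨k, -, -⟩)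
        · exact k
        · exact absurd hy1' k
      · exact fun k => Or.inl ⟨hx', hy1', k⟩
    have hr' : μ' (f x) (f y) ≠ a' ↔ μ x y ≠ a := e2.symm.trans (hr.trans e1)
    rcases (h.2.2.2.2.1 x y hx).1 with k | k
    · rw [k, fa]
      by_contra hne
      exact hr'.1 (Ne.symm hne) k
    · rw [k, fb]
      have k1 : μ x y ≠ a := by rw [k]; exact hab.symm
      rcases (h'.2.2.2.2.1 (f x) (f y) hx').1 with k2 | k2
      · exact absurd k2 (hr'.2 k1)
      · exact k2.symm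

theorem ex_P (M : LG.Structure ℕ) (hM : StD.W 0 M) : ∃ μ, FAP μ ∧ ∃ π : ℕ ≃ {x // dmP μ x},
    ∀ u v, rlP μ (π u) (π v) ↔ gd M u v := by
  classical
  obtain ⟨E, hE⟩ : ∃ E : ℕ → ℕ → Prop, E = gd M := ⟨_, rfl⟩
  have hsd : Subd 0 E := by rw [hE]; exact hM.sd
  obtain ⟨μ, hμ⟩ : ∃ μ : ℕ → ℕ → ℕ, μ = fun x y => if x < 2 ∨ ¬ Big E (x - 2) then x else
      if 2 ≤ y ∧ ¬ Big E (y - 2) ∧ E (x - 2) (y - 2) then 1 else 0 := ⟨_, rfl⟩
  have m0 : ∀ y, μ 0 y = 0 := by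
    intro y
    rw [hμ]
    exact if_pos (Or.inl (by omega))
  have m1 : ∀ y, μ 1 y = 1 := by
    intro y
    rw [hμ]
    exact if_pos (Or.inl (by omega))
  have m2 : ∀ u y, ¬ Big E u → μ (u + 2) y = u + 2 := by
    intro u y hu
    rw [hμ]
    refine if_pos (Or.inr ?_)
    have e : u + 2 - 2 = u := by omega
    rw [e]
    exact hu
  have m3 : ∀ u v, Big E u → ¬ Big E v → E u v → μ (u + 2) (v + 2) = 1 := by
    intro u v hu hv huv
    rw [hμ]
    have e : u + 2 - 2 = u := by omega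
    have e' : v + 2 - 2 = v := by omega
    have h1 : ¬ (u + 2 < 2 ∨ ¬ Big E (u + 2 - 2)) := by
      rw [e]
      rintro (h | h)
      · omega
      · exact h hu
    show (if u + 2 < 2 ∨ ¬ Big E (u + 2 - 2) then u + 2 else
      if 2 ≤ v + 2 ∧ ¬ Big E (v + 2 - 2) ∧ E (u + 2 - 2) (v + 2 - 2) then 1 else 0) = 1
    rw [if_neg h1, e, e', if_pos ⟨by omega, hv, huv⟩]
  have m4 : ∀ u y, Big E u → μ (u + 2) y = 0 ∨ μ (u + 2) y = 1 ∧ ∃ v, y = v + 2 ∧
      ¬ Big E v ∧ E u v := by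
    intro u y hu
    rw [hμ]
    have e : u + 2 - 2 = u := by omega
    have h1 : ¬ (u + 2 < 2 ∨ ¬ Big E (u + 2 - 2)) := by
      rw [e]
      rintro (h | h)
      · omega
      · exact h hu
    show (if u + 2 < 2 ∨ ¬ Big E (u + 2 - 2) then u + 2 else
      if 2 ≤ y ∧ ¬ Big E (y - 2) ∧ E (u + 2 - 2) (y - 2) then 1 else 0) = 0 ∨
      (if u + 2 < 2 ∨ ¬ Big E (u + 2 - 2) then u + 2 else
      if 2 ≤ y ∧ ¬ Big E (y - 2) ∧ E (u + 2 - 2) (y - 2) then 1 else 0) = 1 ∧ _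
    rw [if_neg h1, e]
    by_cases h2 : 2 ≤ y ∧ ¬ Big E (y - 2) ∧ E u (y - 2)
    · rw [if_pos h2]
      exact Or.inr ⟨rfl, y - 2, by omega, h2.2.1, h2.2.2⟩
    · rw [if_neg h2]
      exact Or.inl rfl
  have l0 : lzP μ 0 := m0
  have l1 : lzP μ 1 := m1
  have l2 : ∀ u, lzP μ (u + 2) ↔ ¬ Big E u := by
    intro u
    constructor
    · intro h1 h2
      have h3 := h1 0
      rcases m4 u 0 h2 with h4 | ⟨h4, v, h5, -⟩
      · omega
      · omega
    · exact fun h1 y => m2 u y h1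
  have hrl : ∀ u v, rlP μ (u + 2) (v + 2) ↔ E u v := by
    have key : ∀ u v, (¬ lzP μ (u + 2) ∧ lzP μ (v + 2) ∧
        μ (u + 2) (v + 2) ≠ μ (u + 2) (u + 2)) ↔ (Big E u ∧ ¬ Big E v ∧ E u v) := by
      intro u v
      rw [l2, l2, not_not]
      constructor
      · rintro ⟨h1, h2, h3⟩
        refine ⟨h1, h2, ?_⟩
        rcases m4 u (v + 2) h1 with h4 | ⟨h4, w, h5, h6, h7⟩
        · rcases m4 u (u + 2) h1 with h8 | ⟨h8, w, h9, h10, h11⟩
          · exact absurd (h4.trans h8.symm) h3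
          · have : w = u := by omega
            rw [this] at h10
            exact absurd h1 h10
        · have : w = v := by omega
          rw [this] at h7
          exact h7
      · rintro ⟨h1, h2, h3⟩
        refine ⟨h1, h2, ?_⟩
        rw [m3 u v h1 h2 h3]
        rcases m4 u (u + 2) h1 with h8 | ⟨h8, w, h9, h10, h11⟩
        · omega
        · have : w = u := by omega
          rw [this] at h10
          exact absurd h1 h10
    intro u v
    have h1 : rlP μ (u + 2) (v + 2) ↔ (Big E u ∧ ¬ Big E v ∧ E u v) ∨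
        (Big E v ∧ ¬ Big E u ∧ E v u) := or_congr (key u v) (key v u)
    rw [h1]
    constructor
    · rintro (⟨-, -, h⟩ | ⟨-, -, h⟩)
      · exact h
      · exact hsd.symm _ _ h
    · intro h
      by_cases hu : Big E u
      · have hv : ¬ Big E v := fun hv => hsd.indep _ _ hu hv h
        exact Or.inl ⟨hu, hv, h⟩
      · by_cases hv : Big E v
        · exact Or.inr ⟨hv, hu, hsd.symm _ _ h⟩
        · exact absurd h (sub_ss hsd hu hv)
  have hrl2 : ∀ u y, rlP μ (u + 2) y → ∃ v, y = v + 2 := by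
    intro u y h
    rcases h with ⟨h1, h2, h3⟩ | ⟨h1, h2, h3⟩
    · rw [l2, not_not] at h1
      rcases m4 u y h1 with h4 | ⟨h4, w, h5, h6, h7⟩
      · rcases m4 u (u + 2) h1 with h8 | ⟨h8, w, h9, h10, h11⟩
        · exact absurd (h4.trans h8.symm) h3
        · have : w = u := by omega
          rw [this] at h10
          exact absurd h1 h10
      · exact ⟨w, h5⟩
    · refine ⟨y - 2, ?_⟩
      rcases Nat.lt_or_ge y 2 with hy | hy
      · have : y = 0 ∨ y = 1 := by omega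
        rcases this with rfl | rfl
        · exact absurd l0 h1
        · exact absurd l1 h1
      · omega
  have hbig : ∀ u, Big (rlP μ) (u + 2) ↔ Big E u := by
    intro u
    constructor
    · rintro ⟨x, y, z, h1, h2, h3, h4, h5, h6⟩
      obtain ⟨x, rfl⟩ := hrl2 u x h4
      obtain ⟨y, rfl⟩ := hrl2 u y h5
      obtain ⟨z, rfl⟩ := hrl2 u z h6
      exact ⟨x, y, z, by omega, by omega, by omega, (hrl _ _).1 h4, (hrl _ _).1 h5,
        (hrl _ _).1 h6⟩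
    · rintro ⟨x, y, z, h1, h2, h3, h4, h5, h6⟩
      exact ⟨x + 2, y + 2, z + 2, by omega, by omega, by omega, (hrl _ _).2 h4,
        (hrl _ _).2 h5, (hrl _ _).2 h6⟩
  have hdz : ∀ x, x ≠ 0 → x ≠ 1 → ∃ u, x = u + 2 := fun x h1 h2 => ⟨x - 2, by omega⟩
  have hFB : FB μ 0 1 := by
    refine ⟨by omega, l0, l1, ?_, ?_, ?_⟩
    · obtain ⟨X, -, hX⟩ := hM.inf 1
      have hb : Big E (X 0) := by rw [hE]; exact hX 0
      obtain ⟨u, v, w, -, -, -, h1, -, -⟩ := id hb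
      have hu : ¬ Big E u := fun hu => hsd.indep _ _ hb hu h1
      refine ⟨X 0 + 2, u + 2, ?_, m3 _ _ hb hu h1⟩
      rw [l2, not_not]
      exact hb
    · intro x y hx
      have hx0 : x ≠ 0 := fun e => hx (e ▸ l0)
      have hx1 : x ≠ 1 := fun e => hx (e ▸ l1)
      obtain ⟨u, rfl⟩ := hdz x hx0 hx1
      rw [l2, not_not] at hx
      rcases m4 u y hx with h4 | ⟨h4, w, h5, h6, h7⟩
      · exact ⟨Or.inl h4, fun _ => h4⟩
      · refine ⟨Or.inr h4, ?_⟩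
        rintro (h8 | h8 | h8)
        · rw [h5, l2, not_not] at h8
          exact absurd h8 h6
        · omega
        · omega
    · intro x h1 h2
      obtain ⟨u, rfl⟩ := hdz x h1 h2
      rw [l2, not_not, hbig]
  refine ⟨μ, ⟨0, 1, hFB⟩, ?_⟩
  have hdm : ∀ x, dmP μ x ↔ x ≠ 0 ∧ x ≠ 1 := hFB.dm_iff
  let π : ℕ ≃ {x // dmP μ x} :=
    { toFun := fun u => ⟨u + 2, (hdm _).2 ⟨by omega, by omega⟩⟩
      invFun := fun x => x.1 - 2
      left_inv := fun u => by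
        show u + 2 - 2 = u
        omega
      right_inv := fun x => by
        apply Subtype.ext
        show x.1 - 2 + 2 = x.1
        have := (hdm x.1).1 x.2
        omega }
  refine ⟨π, fun u v => ?_⟩
  rw [← hE]
  exact hrl u v

theorem leaf_P : Lf_P :=
  engine FAP dmP rlP ax_P (fd_dm (FT.var ())) (fd_rl (FT.var 0) (FT.var 1))
    (fun μ ⟨a, b, h⟩ N => h.inf N) up_P ex_P (fun μ ⟨a, b, h⟩ => h.kp)

end Pool.Agent.H227.FV
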